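import Pool.Agent.W487.T.Stm

set_option autoImplicit false

namespace W487T.CB

open Polynomial WeierstrassCurve.Affine Classical

variable {F : Type} [Field F]

instance : Module.Finite F[X] (CR F) := Module.Finite.of_basis (CoordinateRing.basis (Crv F))

/-- the element `p + q y` -/
noncomputable def el (p q : F[X]) : CR F := p • (1 : CR F) + q • ry F

theorem ry_def : ry F = CoordinateRing.mk (Crv F) X := rfl

theorem exists_el (r : CR F) : ∃ p q : F[X], r = el p q := by
  obtain ⟨p, q, h⟩ := CoordinateRing.exists_smul_basis_eq r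
  exact ⟨p, q, h.symm⟩

theorem el_eq_zero {p q : F[X]} (h : el p q = 0) : p = 0 ∧ q = 0 :=
  CoordinateRing.smul_basis_eq_zero h

theorem el_add (p q p' q' : F[X]) : el p q + el p' q' = el (p + p') (q + q') := by
  unfold el
  rw [add_smul, add_smul]
  abel

theorem el_neg (p q : F[X]) : -el p q = el (-p) (-q) := by
  unfold el
  rw [neg_smul, neg_smul]
  abel

theorem el_sub (p q p' q' : F[X]) : el p q - el p' q' = el (p - p') (q - q') := by
  rw [sub_eq_add_neg, el_neg, el_add, ← sub_eq_add_neg, ← sub_eq_add_neg]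

theorem el_inj {p q p' q' : F[X]} (h : el p q = el p' q') : p = p' ∧ q = q' := by
  have h1 : el (p - p') (q - q') = 0 := by rw [← el_sub, h, sub_self]
  obtain ⟨h2, h3⟩ := el_eq_zero h1
  exact ⟨sub_eq_zero.1 h2, sub_eq_zero.1 h3⟩

theorem el_left (p : F[X]) : el p 0 = algebraMap F[X] (CR F) p := by
  unfold el
  rw [zero_smul, add_zero, Algebra.algebraMap_eq_smul_one]

theorem rx_eq : rx F = el X 0 := (el_left X).symm

theorem ry_eq : ry F = el 0 1 := by
  unfold el
  rw [zero_smul, zero_add, one_smul]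

theorem rc_eq (a : F) : rc a = el (C a) 0 := (el_left _).symm

theorem one_eq : (1 : CR F) = el 1 0 := by
  rw [el_left, map_one]

/-- the equation of the curve -/
theorem curve : ry F ^ 2 + rx F * ry F = rx F ^ 3 + rx F := by
  have h : CoordinateRing.mk (Crv F) (Crv F).polynomial = 0 := AdjoinRoot.mk_self
  have h2 : CoordinateRing.mk (Crv F) (C X) = rx F := rfl
  unfold WeierstrassCurve.Affine.polynomial at h
  simp only [Crv, C_0, C_1, zero_mul, one_mul, add_zero] at h
  have h4 : CoordinateRing.mk (Crv F) (X ^ 2 + C X * X - (C (X ^ 3 + X))) = 0 := h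
  rw [map_sub, map_add, map_mul, map_pow, C_add, C_pow, map_add, map_pow] at h4
  exact sub_eq_zero.1 h4

theorem norm_el (p q : F[X]) : Algebra.norm F[X] (el p q) =
    p ^ 2 - p * q * X - q ^ 2 * (X ^ 3 + X) := by
  have h := CoordinateRing.norm_smul_basis (W' := Crv F) p q
  have h2 : Algebra.norm F[X] (el p q) = p ^ 2 - p * q * (C (Crv F).a₁ * X + C (Crv F).a₃) -
      q ^ 2 * (X ^ 3 + C (Crv F).a₂ * X ^ 2 + C (Crv F).a₄ * X + C (Crv F).a₆) := h
  rw [h2]
  simp [Crv]

theorem degree_norm_el (p q : F[X]) : (Algebra.norm F[X] (el p q)).degree =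
    max (2 • p.degree) (2 • q.degree + 3) :=
  CoordinateRing.degree_norm_smul_basis (W' := Crv F) p q

theorem pole_el (p q : F[X]) : pole (el p q) =
    max (2 * p.natDegree) (if q = 0 then 0 else 2 * q.natDegree + 3) := by
  unfold pole
  by_cases hq : q = 0
  · rw [if_pos hq, hq, norm_el]
    simp
  · rw [if_neg hq]
    apply natDegree_eq_of_degree_eq_some
    rw [degree_norm_el, degree_eq_natDegree hq]
    by_cases hp : p = 0
    · rw [hp, degree_zero, natDegree_zero]
      have : (2 • (⊥ : WithBot ℕ)) = ⊥ := by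
        rw [two_nsmul]
        rfl
      rw [this, max_bot_left, mul_zero, Nat.zero_max]
      push_cast
      rw [two_nsmul, two_mul]
    · rw [degree_eq_natDegree hp, (Nat.mono_cast (α := WithBot ℕ)).map_max]
      push_cast
      rw [two_nsmul, two_nsmul, two_mul, two_mul]

theorem norm_ne {a : CR F} (ha : a ≠ 0) : Algebra.norm F[X] a ≠ 0 := by
  rw [Algebra.norm_ne_zero_iff_of_basis (CoordinateRing.basis (Crv F))]
  exact ha

theorem pole_mul {a b : CR F} (ha : a ≠ 0) (hb : b ≠ 0) : pole (a * b) = pole a + pole b := by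
  unfold pole
  rw [map_mul, natDegree_mul (norm_ne ha) (norm_ne hb)]

theorem pole_zero : pole (0 : CR F) = 0 := by
  unfold pole
  rw [Algebra.norm_zero, natDegree_zero]

theorem pole_pow (a : CR F) (n : ℕ) : pole (a ^ n) = n * pole a := by
  unfold pole
  rw [map_pow, natDegree_pow]

theorem pole_neg (a : CR F) : pole (-a) = pole a := by
  obtain ⟨p, q, rfl⟩ := exists_el a
  rw [el_neg, pole_el, pole_el]
  simp

theorem pole_add_le (a b : CR F) : pole (a + b) ≤ max (pole a) (pole b) := by
  obtain ⟨p, q, rfl⟩ := exists_el a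
  obtain ⟨p', q', rfl⟩ := exists_el b
  rw [el_add, pole_el, pole_el, pole_el]
  have h1 := natDegree_add_le p p'
  have h2 := natDegree_add_le q q'
  split_ifs with h3 h4 h5 h6 h7 h8 h9
  all_goals first
    | omega
    | (exfalso; simp_all; done)
    | (subst_vars; simp_all; omega)

theorem pole_add_of_lt {a b : CR F} (h : pole a < pole b) : pole (a + b) = pole b := by
  apply le_antisymm
  · exact (pole_add_le a b).trans (max_le h.le (le_refl _))
  · have h1 := pole_add_le (a + b) (-a)
    rw [pole_neg, add_neg_cancel_comm] at h1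
    rcases le_max_iff.1 h1 with h2 | h2
    · exact h2
    · omega

theorem pole_rc (a : F) : pole (rc a) = 0 := by
  rw [rc_eq, pole_el]
  simp

theorem eq_rc_of_pole {a : CR F} (h : pole a = 0) : ∃ c : F, a = rc c := by
  obtain ⟨p, q, rfl⟩ := exists_el a
  rw [pole_el] at h
  split_ifs at h with h1
  · have h2 : p.natDegree = 0 := by omega
    refine ⟨p.coeff 0, ?_⟩
    rw [rc_eq, h1, ← eq_C_of_natDegree_eq_zero h2]
  · omega

theorem pole_rx : pole (rx F) = 2 := by
  rw [rx_eq, pole_el]
  simp

theorem pole_ry : pole (ry F) = 3 := by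
  rw [ry_eq, pole_el]
  simp

theorem pole_ne_one (a : CR F) : pole a ≠ 1 := by
  obtain ⟨p, q, rfl⟩ := exists_el a
  rw [pole_el]
  split_ifs <;> omega

end W487T.CB
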